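import Mathlib

/-!
# All of Siegel: the final statement (definitions and statement only)

`Scope F`: `F = 0` has no nonconstant solution in `ℚ̄[s, 1/s]`; for an irreducible curve this is exactly the
hypothesis of Siegel's theorem (genus at least one, or at least three points at infinity).
`AtInf k G`: every point at infinity of the curve `G = 0` whose residue field has a real embedding carries `k`
(the hypothesis of `AllCurves`).
`Siegel2` (the final form): `(A)` is `AllCurves` for degree `D`, `(B)` every large integer point of every curve in the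
scope lifts to an integer point of a curve of degree `≤ D`, with coefficients `≤ H^D`, with one field `K` at
infinity.
-/

namespace Pool.Agent.H98.SI

/-- the hypothesis of Siegel's theorem: no nonconstant solution in `ℚ̄[s, 1/s]` -/
def Scope (F : MvPolynomial (Fin 2) ℤ) : Prop :=
  ∀ X Y : LaurentPolynomial (AlgebraicClosure ℚ),
    MvPolynomial.eval₂ (Int.castRingHom (LaurentPolynomial (AlgebraicClosure ℚ))) ![X, Y] F = 0 →
      ∃ a b : AlgebraicClosure ℚ, X = LaurentPolynomial.C a ∧ Y = LaurentPolynomial.C b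

/-- `G` is irreducible over `ℚ`, and all points at infinity of `G = 0` with real residue field carry `k`: for every
number field `L` with a real embedding and all `X, Y` in `L((t))` with `G(X, Y) = 0`, either `X, Y` are in `L[[t]]` or
`k` embeds in `L` -/
def AtInf (k : Type) [Field k] (G : MvPolynomial (Fin 2) ℤ) : Prop :=
  Irreducible (MvPolynomial.map (Int.castRingHom ℚ) G) ∧
    ∀ (L : Type) [Field L] [NumberField L], Nonempty (L →+* ℝ) → ∀ X Y : LaurentSeries L,
      MvPolynomial.eval₂ (Int.castRingHom (LaurentSeries L)) ![X, Y] G = 0 →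
        (X ∈ (HahnSeries.ofPowerSeries ℤ L).range ∧ Y ∈ (HahnSeries.ofPowerSeries ℤ L).range) ∨
          Nonempty (k →+* L)

/-- the integer `a` is in the window of the number `M` -/
def Window (C M : ℕ) (a : ℤ) : Prop := (M : ℤ) ≤ a ∧ a ≤ (M : ℤ) ^ C

/-- the first form (superseded by `Siegel2`) -/
def Siegel : Prop :=
  ∀ n : ℕ, ∃ (C : ℕ) (M : Subfield ℝ → ℕ), ∀ (F : MvPolynomial (Fin 2) ℤ) (H : ℕ),
    F.totalDegree ≤ n → Scope F → 2 ≤ H → (∀ m, |MvPolynomial.coeff m F| ≤ (H : ℤ)) →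
    ∀ x y : ℤ, MvPolynomial.eval ![x, y] F = 0 →
      max |x| |y| ≤ (H : ℤ) ^ C ∨
        ∃ (K : Subfield ℝ) (_ : NumberField K), 3 ≤ Module.finrank ℚ K ∧ Module.finrank ℚ K ≤ C ∧
          |NumberField.discr K| ≤ (H : ℤ) ^ C ∧ (M K : ℤ) ≤ max |x| |y| ∧ max |x| |y| ≤ (M K : ℤ) ^ C

/-- the final statement -/
def Siegel2 : Prop :=
  ∀ n : ℕ, ∃ (D C : ℕ) (M : Subfield ℝ → ℕ), n ≤ D ∧
    (∀ (k : Type) [Field k] [NumberField k], 3 ≤ Module.finrank ℚ k →
      ∀ (G : MvPolynomial (Fin 2) ℤ) (H : ℕ), G.totalDegree ≤ D → AtInf k G → 2 ≤ H →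
        (∀ m, |MvPolynomial.coeff m G| ≤ (H : ℤ)) → ∀ x y : ℤ, MvPolynomial.eval ![x, y] G = 0 →
          max |x| |y| ≤ (H : ℤ) ^ C ∨
            ∃ K : Subfield ℝ, Nonempty (k ≃+* K) ∧ Window C (M K) (max |x| |y|)) ∧
    ∀ (F : MvPolynomial (Fin 2) ℤ) (H : ℕ), F.totalDegree ≤ n → Scope F → 2 ≤ H →
      (∀ m, |MvPolynomial.coeff m F| ≤ (H : ℤ)) → ∀ x y : ℤ, MvPolynomial.eval ![x, y] F = 0 →
        max |x| |y| ≤ (H : ℤ) ^ C ∨
          ∃ (K : Subfield ℝ) (_ : NumberField K) (G : MvPolynomial (Fin 2) ℤ) (c : ℕ) (w : ℤ),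
            3 ≤ Module.finrank ℚ K ∧ Module.finrank ℚ K ≤ D ∧ |NumberField.discr K| ≤ (H : ℤ) ^ D ∧
            Window C (M K) (max |x| |y|) ∧ G.totalDegree ≤ D ∧ AtInf K G ∧
            (∀ m, |MvPolynomial.coeff m G| ≤ (H : ℤ) ^ D) ∧ c ≤ D ∧
            MvPolynomial.eval ![x + c * y, w] G = 0

end Pool.Agent.H98.SI
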