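import Pool.Agent.H4.SF.FIN
import Pool.Agent.H82.NS.Fin

/-!
# Siegel's theorem in full: one unknown number for each real number field

For every `n` there are `D ≥ n`, `C` and a natural number `M(K)` for every subfield `K` of `ℝ`, with the following
two properties. `H ≥ 2` bounds the absolute values of the coefficients.

(A) Let `k` be a number field of degree at least three and `G ∈ ℤ[x,y]` of total degree at most `D`,
irreducible over `ℚ`, such that all points at infinity of the curve `G = 0` with real residue field carry `k`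
(`AtInf k G`). Every integer point of `G = 0` has `max(|x|,|y|) ≤ H^C`, or lies in the window
`M(K) ≤ max(|x|,|y|) ≤ M(K)^C` of a subfield `K` of `ℝ` isomorphic to `k`.

(B) Let `F ∈ ℤ[x,y]` be of total degree at most `n`, without non-constant zeros in `ℚ̄[s,1/s]` (`Scope F`: for an
irreducible curve this is exactly the hypothesis of Siegel's theorem). Every integer point `(x,y)` of `F = 0` has
`max(|x|,|y|) ≤ H^C`, or it lies in the window of a number field `K ⊂ ℝ` of degree at least three and at most `D`, of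
discriminant at most `H^D`, and it lifts to a curve as in (A) for `K`: there are `G` of degree at most `D` with
coefficients at most `H^D` and `AtInf K G`, `0 ≤ c ≤ D` and an integer `w` with `G(x + c y, w) = 0`.
-/

namespace Pool.Agent.Results.MP_821da1_nt.AllOfSiegel

/-- the hypothesis of Siegel's theorem: every solution of `F = 0` in `ℚ̄[s, 1/s]` is constant -/
def Scope (F : MvPolynomial (Fin 2) ℤ) : Prop :=
  ∀ X Y : LaurentPolynomial (AlgebraicClosure ℚ),
    MvPolynomial.eval₂ (Int.castRingHom (LaurentPolynomial (AlgebraicClosure ℚ))) ![X, Y] F = 0 →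
      ∃ a b : AlgebraicClosure ℚ, X = LaurentPolynomial.C a ∧ Y = LaurentPolynomial.C b

/-- `G` is irreducible over `ℚ`, and all points at infinity of `G = 0` with real residue field carry `k`: for every
number field `L` with a real embedding and all `X, Y` in `L((t))` with `G(X, Y) = 0`, either `X, Y` are in `L[[t]]` or
`k` embeds in `L` -/
def AtInf (k : Type) [Field k] (G : MvPolynomial (Fin 2) ℤ) : Prop :=
  Irreducible (MvPolynomial.map (Int.castRingHom ℚ) G) ∧
    ∀ (L : Type) [Field L] [NumberField L], Nonempty (L →+* ℝ) → ∀ X Y : LaurentSeries L,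
      MvPolynomial.eval₂ (Int.castRingHom (LaurentSeries L)) ![X, Y] G = 0 →
        (X ∈ (HahnSeries.ofPowerSeries ℤ L).range ∧ Y ∈ (HahnSeries.ofPowerSeries ℤ L).range) ∨
          Nonempty (k →+* L)

/-- `a` is in the window of `M`: `M ≤ a ≤ M^C` -/
def Window (C M : ℕ) (a : ℤ) : Prop := (M : ℤ) ≤ a ∧ a ≤ (M : ℤ) ^ C

/-- **Siegel's theorem, with one unknown number for each real number field.** -/
theorem result (n : ℕ) : ∃ (D C : ℕ) (M : Subfield ℝ → ℕ), n ≤ D ∧
    (∀ (k : Type) [Field k] [NumberField k], 3 ≤ Module.finrank ℚ k →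
      ∀ (G : MvPolynomial (Fin 2) ℤ) (H : ℕ), G.totalDegree ≤ D → AtInf k G → 2 ≤ H →
        (∀ m, |MvPolynomial.coeff m G| ≤ (H : ℤ)) → ∀ x y : ℤ, MvPolynomial.eval ![x, y] G = 0 →
          max |x| |y| ≤ (H : ℤ) ^ C ∨
            ∃ K : Subfield ℝ, Nonempty (k ≃+* K) ∧ Window C (M K) (max |x| |y|)) ∧
    ∀ (F : MvPolynomial (Fin 2) ℤ) (H : ℕ), F.totalDegree ≤ n → Scope F → 2 ≤ H →
      (∀ m, |MvPolynomial.coeff m F| ≤ (H : ℤ)) → ∀ x y : ℤ, MvPolynomial.eval ![x, y] F = 0 →
        max |x| |y| ≤ (H : ℤ) ^ C ∨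
          ∃ (K : Subfield ℝ) (_ : NumberField K) (G : MvPolynomial (Fin 2) ℤ) (c : ℕ) (w : ℤ),
            3 ≤ Module.finrank ℚ K ∧ Module.finrank ℚ K ≤ D ∧ |NumberField.discr K| ≤ (H : ℤ) ^ D ∧
            Window C (M K) (max |x| |y|) ∧ G.totalDegree ≤ D ∧ AtInf K G ∧
            (∀ m, |MvPolynomial.coeff m G| ≤ (H : ℤ) ^ D) ∧ c ≤ D ∧
            MvPolynomial.eval ![x + c * y, w] G = 0 :=
  Pool.Agent.H4.SF.siegel2_of_frame Pool.Agent.H82.NS.frame n

end Pool.Agent.Results.MP_821da1_nt.AllOfSiegel
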